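import Pool.Agent.Hhelper67.Johnson.Main

/-!
For every `g ≥ 2` and every finite generating set of the mapping class group, the lower
logarithmic densities of all terms of the Johnson filtration are bounded below by one
positive constant.
-/

namespace Pool.Agent.Results.MP_64eec5_gt.PositiveLimit

open Pool.Agent.Hhelper67.Johnson

theorem result : ∀ g : ℕ, 2 ≤ g → ∀ S : Finset (MCG g),
    Subgroup.closure (S : Set (MCG g)) = ⊤ →
    ∃ c : ℝ, 0 < c ∧ ∀ m : ℕ, 1 ≤ m →
      c ≤ lowerLogDensity S (johnson g m : Set (MCG g)) :=
  fun _ hg S hS => lower_positive hg S hS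

end Pool.Agent.Results.MP_64eec5_gt.PositiveLimit
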